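import Pool.Agent.Lib.MP_2a341d_an.LC.NoExt

namespace Pool.Agent.Results.MP_2a341d_an.AsWorded

open MeasureTheory Metric Set Pool.Agent.Lib.MP_2a341d_an
open scoped ENNReal NNReal

/-- A PI-space and a bounded domain in it that is locally `1`-quasiminimal when finite perimeter
is not asked for, whose closure is not a `BV`-extension set. -/
theorem result : ∃ (m : Measure (ℝ × ℝ)) (Ω : Set (ℝ × ℝ)),
    (∀ S : Set (ℝ × ℝ), Bornology.IsBounded S → m S < ∞) ∧ m.IsOpenPosMeasure ∧
    IsDoubling m ∧ HasPoincare m ∧ IsOpen Ω ∧ IsConnected Ω ∧ Bornology.IsBounded Ω ∧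
    LocQuasiMin m 1 Ω univ ∧ ¬ IsBVExtensionSet m (closure Ω) :=
  ⟨volume.withDensity LC.wt, LC.dom, fun _ => LC.wt_finite, LC.wt_ac.isOpenPosMeasure,
    LC.isA1_wt.doubling,
    LC.isA1_wt.poincare LC.measurable_wt (by norm_num) fun _ _ => LC.wt_finite isBounded_ball,
    LC.isOpen_dom, LC.isConnected_dom, LC.isBounded_cdom.subset LC.dom_subset,
    LC.locQuasiMin_dom, LC.not_extension⟩

end Pool.Agent.Results.MP_2a341d_an.AsWorded
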