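import Mathlib
import Pool.Agent.Lib.MP_2a341d_an.Defs
import Pool.Agent.Lib.MP_2a341d_an.Cover
import Pool.Agent.Lib.MP_2a341d_an.Null

namespace Pool.Agent.Results.MP_2a341d_an.ClosureExtension

open MeasureTheory Metric Set Pool.Agent.Lib.MP_2a341d_an
open scoped ENNReal NNReal

/-- In a PI-space, the closure of a bounded open set of locally finite perimeter that is locally
`K`-quasiminimal in the whole space is a `BV`-extension set. -/
theorem result {X : Type*} [MetricSpace X] [CompleteSpace X] [TopologicalSpace.SeparableSpace X]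
    [MeasurableSpace X] [BorelSpace X] (m : Measure X)
    (hfin : ∀ S : Set X, Bornology.IsBounded S → m S < ∞)
    (hD : IsDoubling m) (hP : HasPoincare m) (K : ℝ≥0) (hK : 1 ≤ K) (Ω : Set X)
    (ho : IsOpen Ω) (hb : Bornology.IsBounded Ω)
    (hper : ∀ x : X, ∃ U : Set X, IsOpen U ∧ x ∈ U ∧ per m Ω U < ∞)
    (hq : LocQuasiMin m K Ω univ) :
    IsBVExtensionSet m (closure Ω) := by
  rcases eq_or_ne m 0 with rfl | hm
  · have h0 : tv (0 : Measure X) (fun _ => 0) univ = 0 := by
      rw [tv_eq_tvOpen isOpen_univ]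
      exact le_antisymm Ap.zero.tvOpen_le zero_le
    refine ⟨isClosed_closure.measurableSet, 0, fun f _ =>
      ⟨fun _ => 0, ⟨by simp, ?_⟩, by simp [Filter.EventuallyEq], ?_⟩⟩
    · simp [h0]
    · simp [bvNorm, h0]
  obtain ⟨D, hD⟩ := hD
  obtain ⟨C, l, hC, hl, hP⟩ := hP
  have hD' : ∀ (x : X) (r : ℝ), 0 < r → m (ball x (2 * r)) ≤ (max D 2 : ℝ≥0) * m (ball x r) :=
    fun x r hr => (hD x r hr).trans (mul_le_mul' (by exact_mod_cast le_max_left _ _) le_rfl)
  have := properSpace_of_doubling hD hm fun x r => (hfin _ isBounded_ball).ne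
  have : IsLocallyFiniteMeasure m :=
    ⟨fun x => ⟨ball x 1, ball_mem_nhds x one_pos, hfin _ isBounded_ball⟩⟩
  have hK0 : K ≠ 0 := (one_pos.trans_le hK).ne'
  have hV : ∀ x, ∃ V, x ∈ V ∧ LocData m K Ω V := by
    intro x
    obtain ⟨V, h1, h2, -, h3⟩ := hq x (mem_univ x)
    obtain ⟨U, h4, h5, h6⟩ := hper x
    rw [per, tv_eq_tvOpen h4] at h6
    refine ⟨V ∩ (U ∩ ball x 1), ⟨h2, h5, mem_ball_self one_pos⟩, ho.measurableSet,
      h1.inter (h4.inter isOpen_ball),
      (hfin _ (isBounded_ball.subset (inter_subset_right.trans inter_subset_right))).ne,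
      ne_top_of_le_ne_top h6.ne (tvOpen_mono (inter_subset_right.trans inter_subset_left)),
      fun W hW hWV G hG hGW => ?_⟩
    have := h3 W hW ⟨hWV.1, hWV.2.trans inter_subset_left⟩ ∅ G MeasurableSet.empty hG
      ⟨by simp, by simp⟩ hGW
    rwa [union_empty, per, per, tv_eq_tvOpen hW, tv_eq_tvOpen hW] at this
  exact isBVExtensionSet_closure hK0 ho hb.isCompact_closure hV
    (boundary_null hD' (le_max_right _ _) hm hP hC hl hK0 ho hV)

end Pool.Agent.Results.MP_2a341d_an.ClosureExtension
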